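import Pool.Agent.K3h26.R6.Stm
import Pool.Agent.K3h64.R5.VOLP

/-! Brick VOLP of the project R6 (helper26): a lower bound for the volume of the tile, in dimension
`p + 5`; the one-dimensional part is in `Pool.Agent.K3h64.R5.VOLP` (helper64). -/

set_option autoImplicit false

open MeasureTheory Filter Topology Set
open scoped ENNReal

namespace Pool.Agent.K3h62.R6

open Pool.Agent.K3h26.R6
open Pool.Agent.K3h64.R5 (swp swp_measurable swp_mp swp_abs)

variable {p : ℕ}

/-- the half sides of the box -/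
noncomputable def sd (t : ℝ) (i : Fin (p + 5)) : ℝ := if i.val < 3 then t else t / 2

/-- the box -/
noncomputable def bx (p : ℕ) (t : ℝ) : Set (Fin (p + 5) → ℝ) :=
  Set.pi univ fun i => Ico (-(sd t i)) (sd t i)

lemma vol_bx (t : ℝ) (ht : 0 < t) : volume (bx p t) = ENNReal.ofReal (8 * t ^ (p + 5)) := by
  rw [bx, Real.volume_pi_Ico, ← ENNReal.ofReal_prod_of_nonneg]
  · congr 1
    have h : ∀ i : Fin (p + 2), sd t (i.succ.succ.succ : Fin (p + 5)) -
        -sd t (i.succ.succ.succ : Fin (p + 5)) = t := by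
      intro i
      have h3 : ¬ ((i.succ.succ.succ : Fin (p + 5)).val < 3) := by
        simp [Fin.val_succ]
      rw [sd, if_neg h3]
      ring
    have e0 : sd t (0 : Fin (p + 5)) = t := by rw [sd, if_pos (by simp)]
    have e1 : sd t ((0 : Fin (p + 4)).succ : Fin (p + 5)) = t := by rw [sd, if_pos (by simp)]
    have e2 : sd t ((0 : Fin (p + 3)).succ.succ : Fin (p + 5)) = t := by
      rw [sd, if_pos (by rw [Fin.val_succ, Fin.val_succ, Fin.val_zero]; norm_num)]
    rw [Fin.prod_univ_succ, Fin.prod_univ_succ, Fin.prod_univ_succ, Finset.prod_congr rfl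
      fun i _ => h i, Finset.prod_const, Finset.card_univ, Fintype.card_fin, e0, e1, e2]
    ring
  · intro i _
    simp only [sd]
    split_ifs <;> linarith

/-- the map -/
noncomputable def Fm (t : ℝ) (x : Fin (p + 5) → ℝ) : Fin (p + 5) → ℝ :=
  fun i => (if i.val < 3 then swp t else id) (x i)

lemma Fm_mp (t : ℝ) : MeasurePreserving (Fm (p := p) t) volume volume := by
  refine volume_preserving_pi (f := fun i : Fin (p + 5) => if i.val < 3 then swp t else id) ?_
  intro i
  split_ifs
  · exact swp_mp t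
  · exact MeasurePreserving.id volume

/-- the closed half -/
def Lo (p : ℕ) (t : ℝ) : Set (Fin (p + 5) → ℝ) := bx p t ∩ {x | n1 x ≤ 3 / 2 * t}

lemma n1_cont : Continuous (n1 (p := p)) := by
  unfold n1
  fun_prop

lemma Lo_meas (t : ℝ) : MeasurableSet (Lo p t) := by
  refine MeasurableSet.inter ?_ (measurableSet_le n1_cont.measurable measurable_const)
  exact MeasurableSet.univ_pi fun i => measurableSet_Ico

lemma v0 : ((0 : Fin (p + 5)) : ℕ) < 3 := by simp

lemma v1 : ((1 : Fin (p + 5)) : ℕ) < 3 := by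
  rw [show ((1 : Fin (p + 5)) : ℕ) = 1 from Fin.val_one (p + 3)]
  norm_num

lemma v2 : ((2 : Fin (p + 5)) : ℕ) < 3 := by
  rw [show ((2 : Fin (p + 5)) : ℕ) = 2 from Fin.val_two]
  norm_num

lemma Lo_vol (t : ℝ) (ht : 0 < t) : ENNReal.ofReal (4 * t ^ (p + 5)) ≤ volume (Lo p t) := by
  have h1 : bx p t \ Lo p t ⊆ Fm t ⁻¹' Lo p t := by
    rintro x ⟨hx, hx'⟩
    have h3 : 3 / 2 * t < n1 x := by
      by_contra h
      push Not at h
      exact hx' ⟨hx, h⟩
    have hx2 : ∀ i : Fin (p + 5), x i ∈ Ico (-(sd t i)) (sd t i) := fun i => hx i (mem_univ i)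
    have hs : ∀ i : Fin (p + 5), i.val < 3 →
        |Fm t x i| = t - |x i| ∧ Fm t x i ∈ Ico (-t) t := by
      intro i hi
      have := hx2 i
      rw [sd, if_pos hi] at this
      have h4 := swp_abs t (x i) this
      simp only [Fm, if_pos hi]
      exact h4
    refine ⟨?_, ?_⟩
    · intro i _
      by_cases hi : i.val < 3
      · simp only [sd, if_pos hi]
        exact (hs i hi).2
      · have h5 := hx2 i
        simp only [Fm, if_neg hi, id]
        exact h5
    · show n1 (Fm t x) ≤ 3 / 2 * t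
      rw [n1] at h3 ⊢
      rw [(hs 0 v0).1, (hs 1 v1).1, (hs 2 v2).1]
      linarith
  have h2 : volume (bx p t \ Lo p t) ≤ volume (Lo p t) := by
    calc volume (bx p t \ Lo p t) ≤ volume (Fm t ⁻¹' Lo p t) := measure_mono h1
      _ = volume (Lo p t) := (Fm_mp t).measure_preimage (Lo_meas t).nullMeasurableSet
  have h3 : volume (bx p t) ≤ 2 * volume (Lo p t) := by
    calc volume (bx p t) ≤ volume (Lo p t ∪ (bx p t \ Lo p t)) := measure_mono fun x hx => by
          by_cases h : x ∈ Lo p t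
          · exact Or.inl h
          · exact Or.inr ⟨hx, h⟩
      _ ≤ volume (Lo p t) + volume (bx p t \ Lo p t) := measure_union_le _ _
      _ ≤ volume (Lo p t) + volume (Lo p t) := by gcongr
      _ = 2 * volume (Lo p t) := (two_mul _).symm
  rw [vol_bx t ht] at h3
  have h4 : ENNReal.ofReal (8 * t ^ (p + 5)) = 2 * ENNReal.ofReal (4 * t ^ (p + 5)) := by
    rw [show (2 : ℝ≥0∞) = ENNReal.ofReal 2 by simp, ← ENNReal.ofReal_mul (by norm_num)]
    congr 1
    ring
  rw [h4] at h3
  exact (ENNReal.mul_le_mul_iff_right (by norm_num) (by norm_num)).mp h3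

lemma Lo_sub {t t' : ℝ} (_ht : 0 < t') (h : t < t') : Lo p t ⊆ Pt p t' := by
  rintro x ⟨hx, hn⟩
  have hx2 : ∀ i : Fin (p + 5), x i ∈ Ico (-(sd t i)) (sd t i) := fun i => hx i (mem_univ i)
  have h0 := hx2 0
  have h1 := hx2 1
  have h2 := hx2 2
  rw [sd, if_pos v0] at h0
  rw [sd, if_pos v1] at h1
  rw [sd, if_pos v2] at h2
  simp only [mem_Ico] at h0 h1 h2
  have hn' : n1 x ≤ 3 / 2 * t := hn
  refine ⟨by linarith, ?_, ?_⟩
  · rw [ni]
    refine max_lt ?_ (max_lt ?_ ?_) <;> rw [abs_lt] <;> constructor <;> linarith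
  · rw [nq, pi_norm_lt_iff (by linarith)]
    intro l
    have h3 := hx2 l.succ.succ.succ
    have h4 : ¬ ((l.succ.succ.succ : Fin (p + 5)).val < 3) := by
      simp [Fin.val_succ]
    rw [sd, if_neg h4] at h3
    simp only [mem_Ico] at h3
    rw [Real.norm_eq_abs, abs_lt]
    constructor
    · change -(t' / 2) < x l.succ.succ.succ
      linarith
    · change x l.succ.succ.succ < t' / 2
      linarith

theorem t_VOLP : S_VOLP := by
  intro p t ht
  have hc : Tendsto (fun u : ℝ => ENNReal.ofReal (4 * u ^ (p + 5))) (𝓝[<] t)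
      (𝓝 (ENNReal.ofReal (4 * t ^ (p + 5)))) := by
    apply Tendsto.mono_left _ nhdsWithin_le_nhds
    have : Continuous fun u : ℝ => ENNReal.ofReal (4 * u ^ (p + 5)) :=
      ENNReal.continuous_ofReal.comp (by fun_prop)
    exact this.tendsto t
  refine le_of_tendsto hc ?_
  have hev : ∀ᶠ u in 𝓝[<] t, u ∈ Ioo 0 t := Ioo_mem_nhdsLT ht
  filter_upwards [hev] with u hu
  exact (Lo_vol u hu.1).trans (measure_mono (Lo_sub ht hu.2))

end Pool.Agent.K3h62.R6
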